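import Pool.Agent.W447.LT.Stm

/-!
Project LT, part ENC: numerical encoding of a recursion.
-/

set_option autoImplicit false

namespace Pool.Agent.W377.LT

open Pool.Agent.W447.LT

section
variable {Γ X : Type} {k d : ℕ} (e : Γ ≃ Fin k) (c : X ≃ Fin d) (R : AR Γ X)

/-- the row of a generator -/
def row (g : Γ) : List (ℕ × List (ℕ × Bool)) :=
  List.ofFn fun x : Fin d => ((c (R.perm g (c.symm x)) : ℕ), ew e (R.sec g (c.symm x)))

theorem code_fst : (code e c R).1 = d := rfl

theorem code_snd : (code e c R).2 = List.ofFn fun i : Fin k => row e c R (e.symm i) := rfl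

theorem code_len : (code e c R).2.length = k := by
  rw [code_snd, List.length_ofFn]

theorem getD_row (g : Γ) : (code e c R).2.getD (e g : ℕ) [] = row e c R g := by
  rw [List.getD_eq_getElem _ _ (by rw [code_len]; exact (e g).2)]
  simp only [code_snd, List.getElem_ofFn, Fin.eta, Equiv.symm_apply_apply]

theorem row_getD (g : Γ) (x : X) : (row e c R g).getD (c x : ℕ) (0, []) =
    ((c (R.perm g x) : ℕ), ew e (R.sec g x)) := by
  rw [List.getD_eq_getElem _ _ (by unfold row; rw [List.length_ofFn]; exact (c x).2)]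
  simp only [row, List.getElem_ofFn, Fin.eta, Equiv.symm_apply_apply]

theorem im_eq (g : Γ) (x : X) : (code e c R).im (e g : ℕ) (c x : ℕ) = (c (R.perm g x) : ℕ) := by
  unfold Rec.im
  rw [getD_row, row_getD]

theorem sc_eq (g : Γ) (x : X) : (code e c R).sc (e g : ℕ) (c x : ℕ) = ew e (R.sec g x) := by
  unfold Rec.sc
  rw [getD_row, row_getD]

theorem row_fst (g : Γ) : (row e c R g).map Prod.fst =
    List.ofFn fun x : Fin d => (c (R.perm g (c.symm x)) : ℕ) := by
  unfold row
  rw [List.map_ofFn]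
  rfl

theorem inj_fst (g : Γ) : Function.Injective (fun x : Fin d => (c (R.perm g (c.symm x)) : ℕ)) := by
  intro x y h
  have h1 := Fin.val_injective h
  exact c.symm.injective ((R.perm g).injective (c.injective h1))

theorem pre_eq (g : Γ) (y : X) : (code e c R).pre (e g : ℕ) (c y : ℕ) =
    (c ((R.perm g).symm y) : ℕ) := by
  unfold Rec.pre
  rw [getD_row, row_fst]
  have hnd : (List.ofFn fun x : Fin d => (c (R.perm g (c.symm x)) : ℕ)).Nodup :=
    List.nodup_ofFn.2 (inj_fst c R g)
  have hlt : (c ((R.perm g).symm y) : ℕ) <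
      (List.ofFn fun x : Fin d => (c (R.perm g (c.symm x)) : ℕ)).length := by
    rw [List.length_ofFn]
    exact (c ((R.perm g).symm y)).2
  have h1 := hnd.idxOf_getElem _ hlt
  have h2 : (List.ofFn fun x : Fin d => (c (R.perm g (c.symm x)) : ℕ))[(c ((R.perm g).symm y) : ℕ)] =
      (c y : ℕ) := by
    simp only [List.getElem_ofFn, Fin.eta, Equiv.symm_apply_apply, Equiv.apply_symm_apply]
  rw [h2] at h1
  exact h1

theorem ew_append (u w : W Γ) : ew e (u ++ w) = ew e u ++ ew e w := by
  simp [ew]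

theorem ew_winv (w : W Γ) : ew e (winv w) = winv (ew e w) := by
  simp [ew, winv, Function.comp_def]

theorem one_eq (s : Γ × Bool) (x : X) : (code e c R).one ((e s.1 : ℕ), s.2) (c x : ℕ) =
    ((c (R.one s x).1 : ℕ), ew e (R.one s x).2) := by
  obtain ⟨g, b⟩ := s
  cases b
  · simp [Rec.one, AR.one, pre_eq, sc_eq, ew_winv]
  · simp [Rec.one, AR.one, im_eq, sc_eq]

theorem rs_eq (w : W Γ) (x : X) : (code e c R).rs (ew e w) (c x : ℕ) =
    ((c (R.rs w x).1 : ℕ), ew e (R.rs w x).2) := by
  induction w with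
  | nil => rfl
  | cons s w ih =>
    have h1 : ew e (s :: w) = ((e s.1 : ℕ), s.2) :: ew e w := rfl
    rw [h1]
    simp only [Rec.rs, AR.rs, ih, one_eq, ew_append]

theorem act_eq (u : List X) : ∀ w : W Γ, (code e c R).act (u.map fun x => (c x : ℕ)) (ew e w) =
    (R.act u w).map fun x => (c x : ℕ) := by
  induction u with
  | nil => intro w; rfl
  | cons x u ih =>
    intro w
    simp only [List.map_cons, Rec.act, AR.act, rs_eq, ih]

theorem exists_list (l : List ℕ) (h : ∀ x ∈ l, x < d) :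
    ∃ u : List X, (u.map fun x => (c x : ℕ)) = l := by
  induction l with
  | nil => exact ⟨[], rfl⟩
  | cons a l ih =>
    obtain ⟨u, hu⟩ := ih fun x hx => h x (List.mem_cons_of_mem _ hx)
    exact ⟨c.symm ⟨a, h a List.mem_cons_self⟩ :: u, by simp [hu]⟩

theorem exists_word (l : List (ℕ × Bool)) (h : ∀ s ∈ l, s.1 < k) : ∃ w : W Γ, ew e w = l := by
  induction l with
  | nil => exact ⟨[], rfl⟩
  | cons a l ih =>
    obtain ⟨u, hu⟩ := ih fun x hx => h x (List.mem_cons_of_mem _ hx)
    refine ⟨(e.symm ⟨a.1, h a List.mem_cons_self⟩, a.2) :: u, ?_⟩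
    have h1 : ew e ((e.symm ⟨a.1, h a List.mem_cons_self⟩, a.2) :: u) =
      ((e (e.symm ⟨a.1, h a List.mem_cons_self⟩) : ℕ), a.2) :: ew e u := rfl
    rw [h1, hu, Equiv.apply_symm_apply]

theorem ew_lt (w : W Γ) : ∀ s ∈ ew e w, s.1 < k := by
  intro s hs
  unfold ew at hs
  rw [List.mem_map] at hs
  obtain ⟨t, _, rfl⟩ := hs
  exact (e t.1).2

theorem valid (hd : 2 ≤ d) : (code e c R).Valid := by
  refine ⟨hd, fun g hg => ?_⟩
  rw [code_snd, List.mem_ofFn] at hg
  obtain ⟨i, rfl⟩ := hg
  refine ⟨?_, ?_⟩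
  · rw [row_fst, code_fst]
    refine (List.perm_ext_iff_of_nodup (List.nodup_ofFn.2 (inj_fst c R _)) List.nodup_range).2 fun a => ?_
    rw [List.mem_ofFn, List.mem_range]
    constructor
    · rintro ⟨x, rfl⟩
      exact (c _).2
    · intro ha
      refine ⟨c ((R.perm (e.symm i)).symm (c.symm ⟨a, ha⟩)), ?_⟩
      simp
  · intro p hp s hs
    rw [code_len]
    unfold row at hp
    rw [List.mem_ofFn] at hp
    obtain ⟨x, rfl⟩ := hp
    exact ew_lt e _ s hs

end

theorem enc : ENC := by
  intro Γ X k d e c R hd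
  refine ⟨valid e c R hd, ?_, ?_⟩
  · intro h u v huv
    have hlt : ∀ l : List X, ∀ x ∈ (l.map fun x => (c x : ℕ)), x < (code e c R).1 := by
      intro l x hx
      rw [List.mem_map] at hx
      obtain ⟨t, _, rfl⟩ := hx
      exact (c t).2
    obtain ⟨w, hw, hact⟩ := h u.length (u.map fun x => (c x : ℕ)) (v.map fun x => (c x : ℕ))
      (by simp) (by simp [huv]) (hlt u) (hlt v)
    rw [code_len] at hw
    obtain ⟨w', rfl⟩ := exists_word e w hw
    rw [act_eq] at hact
    refine ⟨w', ?_⟩
    have hinj : Function.Injective (fun x : X => (c x : ℕ)) := fun a b hab =>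
      c.injective (Fin.val_injective hab)
    exact List.map_injective_iff.2 hinj hact
  · intro h n u v hu hv hud hvd
    obtain ⟨u', rfl⟩ := exists_list c u hud
    obtain ⟨v', rfl⟩ := exists_list c v hvd
    obtain ⟨w, hw⟩ := h u' v' (by simpa using hu.trans hv.symm)
    refine ⟨ew e w, ?_, ?_⟩
    · rw [code_len]
      exact ew_lt e w
    · rw [act_eq, hw]

end Pool.Agent.W377.LT
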